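import Pool.Agent.Helper73.HV.St
import Pool.Agent.Helper73.HU.CVO

/-! # HV module PB: functions to an ordinal of another cofinality are bounded on a stationary set -/

namespace Pool.Agent.Helper17.HV

open Ordinal Cardinal ZFSet Order Pool.Agent.Helper73.HODC Pool.Agent.Helper73.HE
open Pool.Agent.Helper73.HM Pool.Agent.Helper73.HU Pool.Agent.Helper73.HV

theorem pb (h1 : StNMap) (h2 : StTR) : StPB := by
  intro τ μ S g hτ hμ hne hS hg
  rcases lt_or_gt_of_ne hne with hlt | hgt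
  · -- `cof μ < cof τ`
    obtain ⟨ι, z, hι, hz, hz'⟩ := cv_cofinal μ
    have hch : ∀ a, ∃ i, g a < μ → g a ≤ z i := by
      intro a
      by_cases h : g a < μ
      · obtain ⟨i, hi⟩ := hz' _ h
        exact ⟨i, fun _ => hi⟩
      · obtain ⟨i, -⟩ := hz' 0 hμ.bot_lt
        exact ⟨i, fun h' => absurd h' h⟩
    choose f hf using hch
    obtain ⟨y, hy⟩ := pg τ ι S f hτ (by rw [hι]; exact hlt) hS
    refine ⟨z y, hz y, hy.mono ?_⟩
    rintro a ⟨ha, hay⟩ haτ
    refine ⟨ha, ?_⟩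
    have h3 := hf a (hg a ha haτ)
    rwa [hay] at h3
  · -- `cof τ < cof μ`
    obtain ⟨h, hN, hh⟩ := h1 τ (isSuccLimit_of_cof hτ)
    have hc : τ.cof.ord.cof = τ.cof := Ordinal.cof_ord_cof τ
    have hc' : ℵ₀ < τ.cof.ord.cof := by rw [hc]; exact hτ
    classical
    let r : Set.Iio τ.cof.ord → Ordinal.{0} := fun x => if h x.1 ∈ S then g (h x.1) else 0
    have hr : ∀ x, r x < μ := by
      intro x
      show (if h x.1 ∈ S then g (h x.1) else 0) < μ
      split_ifs with h3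
      · refine hg _ h3 ?_
        have h4 := hN.strictMono x.2
        rw [hh] at h4
        exact h4
      · exact hμ.bot_lt
    have hlt : (⨆ x : Set.Iio τ.cof.ord, r x) < μ := by
      refine Ordinal.lift_iSup_lt_of_lt_cof ?_ hr
      rw [Cardinal.mk_Iio_ordinal, ← Ordinal.lift_cof, Cardinal.card_ord]
      rw [Cardinal.lift_lift, Cardinal.lift_lt]
      exact hgt
    refine ⟨_, hlt, ?_⟩
    have hS' : Stat S (h τ.cof.ord) := by rw [hh]; exact hS
    rw [h2 h hN _ hc'] at hS'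
    suffices hgoal : Stat {a | a ∈ S ∧ g a ≤ ⨆ x, r x} (h τ.cof.ord) from
      (congrArg (Stat {a | a ∈ S ∧ g a ≤ ⨆ x, r x}) hh).mp hgoal
    rw [h2 h hN _ hc']
    refine hS'.mono fun i hi hic => ⟨hi, ?_⟩
    have h3 := Ordinal.le_iSup r ⟨i, hic⟩
    have h4 : r ⟨i, hic⟩ = g (h i) := if_pos hi
    rwa [h4] at h3

end Pool.Agent.Helper17.HV
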